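import Mathlib
import Pool.Agent.Q304.SK.Meas

/-!
# MP_d104cf_an, Q1: strongly countably determined measures on sick compacta are analytic

If `K` is a sick compactum and `μ` is a regular Borel probability measure on `K` such that `{μ}`
is a `G_δ` subset of `P(K)` (weak* topology), then `L_1(μ)` is separable and the image of `C(K)`
in `L_1(μ)` is an analytic set.
-/

set_option autoImplicit false

open TopologicalSpace MeasureTheory

namespace Pool.Agent.Results.MP_d104cf_an.GdeltaPointsAnalytic

universe u v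

/-- `K` is sick: there are a separable Banach lattice `E`, an element `x ≥ 0` of `E` and a linear
injection `T : C(K) → E` preserving the lattice operations, with `T 1 = x`, whose range is the
principal ideal `E_x = {y : |y| ≤ r x for some r > 0}`. -/
def Sick (K : Type u) [TopologicalSpace K] : Prop :=
  ∃ (E : Type v) (_ : NormedAddCommGroup E) (_ : Lattice E) (_ : HasSolidNorm E)
    (_ : IsOrderedAddMonoid E) (_ : NormedSpace ℝ E) (_ : PosSMulMono ℝ E) (_ : CompleteSpace E)
    (_ : SeparableSpace E) (x : E) (T : C(K, ℝ) →ₗ[ℝ] E),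
    0 ≤ x ∧ Function.Injective T ∧ (∀ f g, T (f ⊔ g) = T f ⊔ T g) ∧
    (∀ f g, T (f ⊓ g) = T f ⊓ T g) ∧ T 1 = x ∧
    Set.range T = {y : E | ∃ r : ℝ, 0 < r ∧ |y| ≤ r • x}

/-- `P(K)`: regular Borel probability measures. -/
def RegProb (K : Type u) [TopologicalSpace K] [MeasurableSpace K] : Type u :=
  {μ : Measure K // IsProbabilityMeasure μ ∧ μ.Regular}

/-- The weak* topology on `P(K)` induced by `C(K)`. -/
noncomputable def weakStar (K : Type u) [TopologicalSpace K] [MeasurableSpace K] :
    TopologicalSpace (RegProb K) :=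
  TopologicalSpace.induced (fun μ (f : C(K, ℝ)) => ∫ x, f x ∂μ.1) inferInstance

instance {K : Type u} [TopologicalSpace K] [MeasurableSpace K] (μ : RegProb K) :
    IsProbabilityMeasure μ.1 := μ.2.1

theorem result (K : Type u) [TopologicalSpace K] [CompactSpace K] [T2Space K] [MeasurableSpace K]
    [BorelSpace K] (hK : Sick.{u, v} K) (μ : RegProb K)
    (hμ : @IsGδ (RegProb K) (weakStar K) {μ}) :
    SeparableSpace (Lp ℝ 1 μ.1) ∧
      AnalyticSet (Set.range
        (ContinuousMap.toLp (E := ℝ) 1 μ.1 ℝ : C(K, ℝ) → Lp ℝ 1 μ.1)) :=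
  Pool.Agent.Q304.SK.analytic_of_Gdelta hK (μ := μ) hμ

end Pool.Agent.Results.MP_d104cf_an.GdeltaPointsAnalytic
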